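import Mathlib

namespace Pool.Agent.H.MP_0d5181_co

open Finset

section
variable {ι : Type*} [Fintype ι] [DecidableEq ι]

def wt (p : ι → ℝ) (ω : ι → Bool) : ℝ := ∏ i, if ω i then p i else 1 - p i

/-- Expectation for independent coins. -/
def E (p : ι → ℝ) (f : (ι → Bool) → ℝ) : ℝ := ∑ ω, wt p ω * f ω

def ind (ω : ι → Bool) (i : ι) : ℝ := if ω i then 1 else 0

omit [Fintype ι] [DecidableEq ι] in
theorem ind_nonneg (ω : ι → Bool) (i : ι) : 0 ≤ ind ω i := by unfold ind; split_ifs <;> norm_num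

theorem mom (p : ι → ℝ) (T : Finset ι) : E p (fun ω => ∏ i ∈ T, ind ω i) = ∏ i ∈ T, p i := by
  have h1 : ∀ ω : ι → Bool, wt p ω * ∏ i ∈ T, ind ω i =
      ∏ i, ((if ω i then p i else 1 - p i) * if i ∈ T then (if ω i then (1 : ℝ) else 0) else 1) := by
    intro ω
    rw [prod_mul_distrib, prod_ite_mem, univ_inter]; rfl
  simp only [E, h1]
  rw [← Fintype.prod_sum (fun i (b : Bool) => (if b then p i else 1 - p i) *
    if i ∈ T then (if b then (1 : ℝ) else 0) else 1)]
  have h2 : ∏ i ∈ T, p i = ∏ i, if i ∈ T then p i else 1 := by rw [prod_ite_mem, univ_inter]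
  rw [h2]
  refine prod_congr rfl fun i _ => ?_
  by_cases h : i ∈ T <;> simp [h]

theorem E_one (p : ι → ℝ) : E p (fun _ => 1) = 1 := by simpa using mom p ∅

theorem E_const (p : ι → ℝ) (c : ℝ) : E p (fun _ => c) = c := by
  have := E_one p
  simp only [E, mul_one] at this
  simp only [E]; rw [← sum_mul, this, one_mul]

theorem E_add (p : ι → ℝ) (f g : (ι → Bool) → ℝ) :
    E p (fun ω => f ω + g ω) = E p f + E p g := by
  simp only [E, mul_add, sum_add_distrib]

theorem E_mul (p : ι → ℝ) (c : ℝ) (f : (ι → Bool) → ℝ) : E p (fun ω => c * f ω) = c * E p f := by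
  simp only [E, mul_sum]; exact sum_congr rfl fun _ _ => by ring

theorem E_sum {β : Type*} (p : ι → ℝ) (s : Finset β) (f : β → (ι → Bool) → ℝ) :
    E p (fun ω => ∑ b ∈ s, f b ω) = ∑ b ∈ s, E p (f b) := by
  simp only [E, mul_sum]; exact sum_comm

theorem E_mono {p : ι → ℝ} (hp : ∀ i, 0 ≤ p i ∧ p i ≤ 1) {f g : (ι → Bool) → ℝ}
    (h : ∀ ω, f ω ≤ g ω) : E p f ≤ E p g :=
  sum_le_sum fun ω _ => mul_le_mul_of_nonneg_left (h ω) (prod_nonneg fun i _ => by
    have := hp i; split_ifs <;> linarith)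

theorem mom1 (p : ι → ℝ) (i : ι) : E p (fun ω => ind ω i) = p i := by simpa using mom p {i}

theorem mom2 (p : ι → ℝ) {i j : ι} (h : i ≠ j) :
    E p (fun ω => ind ω i * ind ω j) = p i * p j := by
  simpa [prod_pair h] using mom p {i, j}

omit [Fintype ι] [DecidableEq ι] in
theorem ind_sq (ω : ι → Bool) (i : ι) : ind ω i * ind ω i = ind ω i := by
  unfold ind; split_ifs <;> norm_num

theorem pz {p : ι → ℝ} (hp : ∀ i, 0 ≤ p i ∧ p i ≤ 1) (Y : (ι → Bool) → ℝ) {μ ν : ℝ} (hμ : 0 < μ)
    (hν : 0 < ν) (h1 : μ ≤ E p Y) (h2 : E p (fun ω => Y ω ^ 2) ≤ ν) :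
    μ ^ 2 / (4 * ν) ≤ E p (fun ω => if μ / 2 ≤ Y ω then 1 else 0) := by
  have h3 : E p Y ≤ E p (fun ω => μ / 2 + (μ / (4 * ν) * Y ω ^ 2 +
      ν / μ * if μ / 2 ≤ Y ω then 1 else 0)) := by
    refine E_mono hp fun ω => ?_
    split_ifs with h
    · have : μ / (4 * ν) * Y ω ^ 2 + ν / μ * 1 - Y ω = (μ * Y ω - 2 * ν) ^ 2 / (4 * ν * μ) := by
        field_simp; ring
      have : 0 ≤ (μ * Y ω - 2 * ν) ^ 2 / (4 * ν * μ) := by positivity
      linarith
    · have : 0 ≤ μ / (4 * ν) * Y ω ^ 2 := by positivity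
      linarith
  rw [E_add, E_add, E_const, E_mul, E_mul] at h3
  have h4 : μ / (4 * ν) * E p (fun ω => Y ω ^ 2) ≤ μ / 4 := by
    calc _ ≤ μ / (4 * ν) * ν := by gcongr
      _ = μ / 4 := by field_simp
  have h5 : μ / 4 ≤ ν / μ * E p (fun ω => if μ / 2 ≤ Y ω then 1 else 0) := by linarith
  rw [div_le_iff₀ (by positivity)]
  rw [div_mul_eq_mul_div, le_div_iff₀ hμ] at h5
  nlinarith

theorem E_blocks {J : Type*} [Fintype J] [DecidableEq J] (p : ι → ℝ) (g : J → (ι → Bool) → ℝ) :
    E (fun a : J × ι => p a.2) (fun ω => ∏ j, g j fun i => ω (j, i)) = ∏ j, E p (g j) := by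
  simp only [E]
  rw [Fintype.prod_sum (fun j (ω : ι → Bool) => wt p ω * g j ω)]
  refine Fintype.sum_equiv (Equiv.curry J ι Bool) _ _ fun ω => ?_
  rw [prod_mul_distrib]
  congr 1
  simp only [wt, Fintype.prod_prod_type]; rfl

end

section
variable {X Z : Type*} [Fintype X] [DecidableEq X] [DecidableEq Z]

theorem mom4 (p : X → ℝ) (x x' y y' : X) :
    E (fun a : Bool × X => p a.2) (fun ω => (ind ω (true, x) * ind ω (true, x')) *
      (ind ω (false, y) * ind ω (false, y'))) =
    (if x = x' then p x else p x * p x') * (if y = y' then p y else p y * p y') := by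
  by_cases h1 : x = x' <;> by_cases h2 : y = y'
  · subst h1 h2
    simp only [ind_sq, if_true]
    exact mom2 _ (by simp)
  · subst h1
    have := mom (fun a : Bool × X => p a.2) {(true, x), (false, y), (false, y')}
    simp only [ind_sq, if_true, h2, if_false]
    simpa [prod_insert, h2] using this
  · subst h2
    have := mom (fun a : Bool × X => p a.2) {(true, x), (true, x'), (false, y)}
    simp only [ind_sq, if_true, h1, if_false]
    simpa [prod_insert, h1, mul_assoc] using this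
  · have := mom (fun a : Bool × X => p a.2) {(true, x), (true, x'), (false, y), (false, y')}
    simp only [h1, h2, if_false]
    simpa [prod_insert, h1, h2, mul_assoc] using this

def Gam (p : X → ℝ) (σ : X → X → Z) (z : Z) : ℝ :=
  ∑ r ∈ univ.filter (fun r : X × X => σ r.1 r.2 = z), p r.1 * p r.2

theorem q_le {β : Type*} [DecidableEq β] (s : Finset β) (u : β → ℝ) (hu : ∀ b, 0 ≤ u b) :
    ∑ a ∈ s, ∑ b ∈ s, (if a = b then u a else u a * u b) ≤ ∑ a ∈ s, u a + (∑ a ∈ s, u a) ^ 2 := by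
  rw [sq, sum_mul_sum, ← sum_add_distrib]
  refine sum_le_sum fun a ha => ?_
  calc _ ≤ ∑ b ∈ s, ((if a = b then u a else 0) + u a * u b) := sum_le_sum fun b _ => by
        have := mul_nonneg (hu a) (hu b)
        split_ifs <;> linarith
    _ = _ := by rw [sum_add_distrib, sum_ite_eq]; simp [ha]

/-- The set of values `σ x y` with `x` in the first sample and `y` in the second. -/
def hit (σ : X → X → Z) (ω : Bool × X → Bool) : Finset Z :=
  (univ.filter fun r : X × X => ω (true, r.1) ∧ ω (false, r.2)).image fun r => σ r.1 r.2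

theorem hit_prob {p : X → ℝ} (hp : ∀ i, 0 ≤ p i ∧ p i ≤ 1) {σ : X → X → Z}
    (h1 : ∀ x y y', σ x y = σ x y' → y = y') (h2 : ∀ x x' y, σ x y = σ x' y → x = x') (z : Z) :
    min 1 (Gam p σ z) / 2 ≤
      E (fun a : Bool × X => p a.2) (fun ω => if z ∈ hit σ ω then 1 else 0) := by
  set R := univ.filter (fun r : X × X => σ r.1 r.2 = z) with hR
  let N : (Bool × X → Bool) → ℝ := fun ω => ∑ r ∈ R, ind ω (true, r.1) * ind ω (false, r.2)
  have hq : ∀ a : Bool × X, 0 ≤ p a.2 ∧ p a.2 ≤ 1 := fun a => hp a.2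
  have hG : 0 ≤ Gam p σ z := sum_nonneg fun r _ => mul_nonneg (hp _).1 (hp _).1
  have e1 : E (fun a : Bool × X => p a.2) N = Gam p σ z := by
    rw [E_sum]; exact sum_congr rfl fun r _ => mom2 _ (by simp)
  have e2 : E (fun a : Bool × X => p a.2) (fun ω => N ω ^ 2) ≤ Gam p σ z + Gam p σ z ^ 2 := by
    simp only [N, sq, sum_mul_sum]
    rw [E_sum]
    simp only [E_sum]
    refine le_trans (le_of_eq ?_) ((q_le R (fun r => p r.1 * p r.2)
      fun r => mul_nonneg (hp _).1 (hp _).1).trans (le_of_eq (by rw [sq]; rfl)))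
    refine sum_congr rfl fun r hr => sum_congr rfl fun r' hr' => ?_
    have := mom4 p r.1 r'.1 r.2 r'.2
    have e3 := (mem_filter.1 hr).2.trans (mem_filter.1 hr').2.symm
    refine Eq.trans (by congr 1; funext ω; ring) (this.trans ?_)
    by_cases h : r = r'
    · simp [h]
    · have a1 : r.1 ≠ r'.1 := fun e => h (Prod.ext e (h1 _ _ _ (e ▸ e3)))
      have a2 : r.2 ≠ r'.2 := fun e => h (Prod.ext (h2 _ _ _ (e ▸ e3)) e)
      simp only [a1, a2, h, if_false]; ring
  set g := Gam p σ z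
  have h3 : E (fun a : Bool × X => p a.2) N ≤ E (fun a : Bool × X => p a.2)
      (fun ω => 1 / (2 * (1 + g)) * N ω ^ 2 + (1 + g) / 2 * if z ∈ hit σ ω then 1 else 0) := by
    refine E_mono hq fun ω => ?_
    split_ifs with h
    · have : 1 / (2 * (1 + g)) * N ω ^ 2 + (1 + g) / 2 * 1 - N ω =
          (N ω - (1 + g)) ^ 2 / (2 * (1 + g)) := by field_simp; ring
      have : 0 ≤ (N ω - (1 + g)) ^ 2 / (2 * (1 + g)) := by positivity
      linarith
    · have : N ω = 0 := sum_eq_zero fun r hr => by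
        by_contra h4
        refine h (mem_image.2 ⟨r, mem_filter.2 ⟨mem_univ _, ?_⟩, (mem_filter.1 hr).2⟩)
        unfold ind at h4
        split_ifs at h4 <;> simp_all
      simp [this]
  rw [E_add, E_mul, E_mul, e1] at h3
  have h4 : 1 / (2 * (1 + g)) * E (fun a : Bool × X => p a.2) (fun ω => N ω ^ 2) ≤ g / 2 := by
    calc _ ≤ 1 / (2 * (1 + g)) * (g + g ^ 2) := by gcongr
      _ = g / 2 := by field_simp
  set P := E (fun a : Bool × X => p a.2) (fun ω => if z ∈ hit σ ω then (1 : ℝ) else 0)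
  have h5 : g ≤ (1 + g) * P := by linarith
  rcases le_total 1 g with h | h
  · rw [min_eq_left h]; nlinarith
  · rw [min_eq_right h]; nlinarith

theorem card_ind (ω : Bool × X → Bool) (b : Bool) :
    ((univ.filter fun x => ω (b, x)).card : ℝ) = ∑ x, ind ω (b, x) := by
  rw [card_filter]; simp [ind]

theorem block_hit {p : X → ℝ} (hp : ∀ i, 0 ≤ p i ∧ p i ≤ 1) {σ : X → X → Z}
    (h1 : ∀ x y y', σ x y = σ x y' → y = y') (h2 : ∀ x x' y, σ x y = σ x' y → x = x')
    (hs : 1 ≤ ∑ x, p x) {F η : ℝ} (hF : 0 < F) (hη : 0 < η) (T : Finset Z)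
    (hT : F / η ≤ ∑ z ∈ T, min 1 (Gam p σ z))
    (hT' : (T.card : ℝ) ≤ η * F ∨ (∑ x, p x) ^ 2 ≤ η * F) :
    1 / (64 * η ^ 4) ≤ E (fun a : Bool × X => p a.2)
      (fun ω => if F / (4 * η) ≤ (hit σ ω).card then 1 else 0) := by
  have hq : ∀ a : Bool × X, 0 ≤ p a.2 ∧ p a.2 ≤ 1 := fun a => hp a.2
  let Y : (Bool × X → Bool) → ℝ := fun ω => ∑ z ∈ T, if z ∈ hit σ ω then 1 else 0
  have hY : ∀ ω, Y ω = (T.filter (· ∈ hit σ ω)).card := fun ω => by simp [Y, filter_mem_eq_inter]
  have hY1 : ∀ ω, Y ω ≤ (hit σ ω).card := fun ω => by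
    rw [hY]; exact_mod_cast card_le_card fun z hz => (mem_filter.1 hz).2
  have e1 : F / (2 * η) ≤ E (fun a : Bool × X => p a.2) Y := by
    rw [E_sum]
    calc F / (2 * η) = F / η / 2 := by field_simp
      _ ≤ (∑ z ∈ T, min 1 (Gam p σ z)) / 2 := by gcongr
      _ = ∑ z ∈ T, min 1 (Gam p σ z) / 2 := by rw [sum_div]
      _ ≤ _ := sum_le_sum fun z _ => hit_prob hp h1 h2 z
  have e2 : E (fun a : Bool × X => p a.2) (fun ω => Y ω ^ 2) ≤ 4 * (η * F) ^ 2 := by
    rcases hT' with h | h
    · refine (E_mono hq fun ω => ?_).trans (E_const _ _).le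
      have a1 : Y ω ≤ η * F := by
        rw [hY]; exact le_trans (by exact_mod_cast card_filter_le _ _) h
      have a2 : 0 ≤ Y ω := by rw [hY]; positivity
      nlinarith
    · have a3 : ∀ ω : Bool × X → Bool, Y ω ^ 2 ≤ ∑ x, ∑ x', ∑ y, ∑ y',
          (ind ω (true, x) * ind ω (true, x')) * (ind ω (false, y) * ind ω (false, y')) := by
        intro ω
        have b1 : Y ω ≤ (∑ x, ind ω (true, x)) * ∑ y, ind ω (false, y) := by
          rw [← card_ind, ← card_ind]
          refine (hY1 ω).trans ?_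
          rw [← Nat.cast_mul, ← card_product]
          exact_mod_cast card_image_le.trans (card_le_card fun r hr => by simpa using hr)
        have a2 : 0 ≤ Y ω := by rw [hY]; positivity
        calc Y ω ^ 2 ≤ ((∑ x, ind ω (true, x)) * ∑ y, ind ω (false, y)) ^ 2 := by gcongr
          _ = ((∑ x, ind ω (true, x)) * ∑ x, ind ω (true, x)) *
              ((∑ y, ind ω (false, y)) * ∑ y, ind ω (false, y)) := by ring
          _ = _ := by
            rw [sum_mul_sum, sum_mul_sum]
            simp only [sum_mul]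
            simp only [mul_sum]
      refine (E_mono hq a3).trans ?_
      simp only [E_sum, mom4]
      have b2 := q_le univ p fun x => (hp x).1
      have b3 : 0 ≤ ∑ a, ∑ b, (if a = b then p a else p a * p b) :=
        sum_nonneg fun a _ => sum_nonneg fun b _ => by
          have := mul_nonneg (hp a).1 (hp b).1
          have := (hp a).1
          split_ifs <;> assumption
      calc _ = (∑ a, ∑ b, (if a = b then p a else p a * p b)) *
            (∑ a, ∑ b, (if a = b then p a else p a * p b)) := by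
            simp only [sum_mul]
            simp only [mul_sum]
        _ ≤ (2 * (η * F)) * (2 * (η * F)) := by
            have : ∑ a, ∑ b, (if a = b then p a else p a * p b) ≤ 2 * (η * F) := by nlinarith
            gcongr
        _ = _ := by ring
  have := pz hq Y (by positivity) (by positivity) e1 e2
  refine le_trans (le_of_eq (by field_simp; ring)) (this.trans (E_mono hq fun ω => ?_))
  have := hY1 ω
  have e : F / (2 * η) / 2 = F / (4 * η) := by field_simp; ring
  rw [e]
  split_ifs <;> linarith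

theorem block_card {p : X → ℝ} (hp : ∀ i, 0 ≤ p i ∧ p i ≤ 1) (hs : 1 ≤ ∑ x, p x) :
    1 / 8 ≤ E (fun a : Bool × X => p a.2)
      (fun ω => if (∑ x, p x) / 2 ≤ ∑ x, ind ω (true, x) then 1 else 0) := by
  have hq : ∀ a : Bool × X, 0 ≤ p a.2 ∧ p a.2 ≤ 1 := fun a => hp a.2
  have := pz hq (fun ω => ∑ x, ind ω (true, x)) (μ := ∑ x, p x) (ν := 2 * (∑ x, p x) ^ 2)
    (by linarith) (by positivity) (by simp only [E_sum, mom1]; rfl) ?_
  · refine le_trans (le_of_eq ?_) this
    have : (∑ x, p x) ≠ 0 := by linarith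
    field_simp; ring
  · simp only [sq, sum_mul_sum, E_sum]
    have b2 := q_le univ p fun x => (hp x).1
    calc _ = ∑ a, ∑ b, (if a = b then p a else p a * p b) := by
          refine sum_congr rfl fun a _ => sum_congr rfl fun b _ => ?_
          split_ifs with h
          · subst h; simp only [ind_sq, mom1]
          · exact mom2 _ (by simpa using h)
      _ ≤ _ := by rw [← sum_mul_sum]; nlinarith

end

end Pool.Agent.H.MP_0d5181_co
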