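import Pool.Agent.H.MP_0d5181_co.A

namespace Pool.Agent.H.MP_0d5181_co

open Finset

variable {X Z K : Type*} [Fintype X] [DecidableEq X] [DecidableEq Z] [Fintype K] [DecidableEq K]

/-- The union of all samples. -/
def uni {J : Type*} [Fintype J] (ω : J × Bool × X → Bool) : Finset X :=
  univ.filter fun x => ∃ a : J × Bool, ω (a.1, a.2, x)

theorem uni_ind {J : Type*} [Fintype J] (ω : J × Bool × X → Bool) (x : X) :
    (if x ∈ uni ω then (1 : ℝ) else 0) ≤ ∑ a : J × Bool, ind ω (a.1, a.2, x) := by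
  split_ifs with h
  · obtain ⟨a, ha⟩ := (mem_filter.1 h).2
    refine le_trans (le_of_eq ?_) (single_le_sum (f := fun a : J × Bool => ind ω (a.1, a.2, x))
      (fun a _ => ind_nonneg _ _) (mem_univ a))
    simp [ind, ha]
  · exact sum_nonneg fun a _ => ind_nonneg _ _

theorem uni_card {J : Type*} [Fintype J] [DecidableEq J] {p : X → ℝ}
    (hp : ∀ i, 0 ≤ p i ∧ p i ≤ 1) :
    E (fun a : J × Bool × X => p a.2.2) (fun ω => ((uni ω).card : ℝ)) ≤
      Fintype.card (J × Bool) * ∑ x, p x := by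
  refine (E_mono (fun a => hp _) (g := fun ω => ∑ x, ∑ a : J × Bool, ind ω (a.1, a.2, x))
    fun ω => ?_).trans (le_of_eq ?_)
  · refine le_trans (le_of_eq ?_) (sum_le_sum fun x _ => uni_ind ω x)
    simp
  · simp only [E_sum, mom1, sum_const, card_univ, nsmul_eq_mul, mul_sum]

theorem uni_image {J : Type*} [Fintype J] [DecidableEq J] [Nonempty J] {p : X → ℝ}
    (hp : ∀ i, 0 ≤ p i ∧ p i ≤ 1) (σ : X → X → Z) :
    E (fun a : J × Bool × X => p a.2.2)
      (fun ω => (((uni ω ×ˢ uni ω).image fun r => σ r.1 r.2).card : ℝ)) ≤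
      Fintype.card (J × Bool) * ∑ x, p x + (Fintype.card (J × Bool) : ℝ) ^ 2 *
        ∑ z ∈ univ.image (fun r : X × X => σ r.1 r.2), min 1 (Gam p σ z) := by
  have hq : ∀ a : J × Bool × X, 0 ≤ p a.2.2 ∧ p a.2.2 ≤ 1 := fun a => hp _
  let R : Z → Finset (X × X) := fun z => univ.filter fun r => σ r.1 r.2 = z ∧ r.1 ≠ r.2
  let V : Z → (J × Bool × X → Bool) → ℝ := fun z ω => ∑ r ∈ R z,
    (∑ a : J × Bool, ind ω (a.1, a.2, r.1)) * ∑ a : J × Bool, ind ω (a.1, a.2, r.2)
  have hV : ∀ z ω, 0 ≤ V z ω := fun z ω => sum_nonneg fun r _ =>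
    mul_nonneg (sum_nonneg fun a _ => ind_nonneg _ _) (sum_nonneg fun a _ => ind_nonneg _ _)
  have hM : (1 : ℝ) ≤ (Fintype.card (J × Bool) : ℝ) ^ 2 :=
    one_le_pow₀ (by exact_mod_cast Fintype.card_pos)
  refine (E_mono hq (g := fun ω => ((uni ω).card : ℝ) +
    ∑ z ∈ univ.image (fun r : X × X => σ r.1 r.2), min 1 (V z ω)) fun ω => ?_).trans ?_
  · let B := (univ.image (fun r : X × X => σ r.1 r.2)).filter fun z => 1 ≤ V z ω
    have h1 : (uni ω ×ˢ uni ω).image (fun r => σ r.1 r.2) ⊆ (uni ω).image (fun x => σ x x) ∪ B := by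
      intro z hz
      obtain ⟨r, hr, rfl⟩ := mem_image.1 hz
      obtain ⟨a1, a2⟩ := mem_product.1 hr
      by_cases e : r.1 = r.2
      · exact mem_union_left _ (mem_image.2 ⟨r.1, a1, by rw [← e]⟩)
      · refine mem_union_right _ (mem_filter.2 ⟨mem_image_of_mem _ (mem_univ r), ?_⟩)
        refine le_trans ?_ (single_le_sum (f := fun r : X × X =>
          (∑ a : J × Bool, ind ω (a.1, a.2, r.1)) * ∑ a : J × Bool, ind ω (a.1, a.2, r.2))
          (fun r _ => mul_nonneg (sum_nonneg fun a _ => ind_nonneg _ _)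
            (sum_nonneg fun a _ => ind_nonneg _ _)) (mem_filter.2 ⟨mem_univ r, rfl, e⟩))
        have b1 := uni_ind ω r.1
        have b2 := uni_ind ω r.2
        rw [if_pos a1] at b1
        rw [if_pos a2] at b2
        exact one_le_mul_of_one_le_of_one_le b1 b2
    have h2 : (B.card : ℝ) ≤ ∑ z ∈ univ.image (fun r : X × X => σ r.1 r.2), min 1 (V z ω) := by
      calc (B.card : ℝ) = ∑ z ∈ B, min 1 (V z ω) := by
            rw [card_eq_sum_ones, Nat.cast_sum]
            exact sum_congr rfl fun z hz => by simp [min_eq_left (mem_filter.1 hz).2]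
        _ ≤ _ := sum_le_sum_of_subset_of_nonneg (filter_subset _ _)
            fun z _ _ => le_min zero_le_one (hV z ω)
    have h3 := (card_le_card h1).trans ((card_union_le _ _).trans
      (Nat.add_le_add_right card_image_le _))
    have h4 : (((uni ω ×ˢ uni ω).image fun r => σ r.1 r.2).card : ℝ) ≤ (uni ω).card + B.card := by
      exact_mod_cast h3
    linarith
  · rw [E_add, E_sum]
    refine add_le_add (uni_card hp) ?_
    rw [mul_sum]
    refine sum_le_sum fun z _ => ?_
    have h1 : E (fun a : J × Bool × X => p a.2.2) (V z) ≤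
        (Fintype.card (J × Bool) : ℝ) ^ 2 * Gam p σ z := by
      simp only [V, E_sum, sum_mul_sum]
      calc _ = ∑ r ∈ R z, (Fintype.card (J × Bool) : ℝ) ^ 2 * (p r.1 * p r.2) := by
            refine sum_congr rfl fun r hr => ?_
            have : r.1 ≠ r.2 := (mem_filter.1 hr).2.2
            rw [sum_congr rfl fun a _ => sum_congr rfl fun b _ =>
              mom2 (fun a : J × Bool × X => p a.2.2) (i := (a.1, a.2, r.1)) (j := (b.1, b.2, r.2))
                (by simp [this])]
            simp only [sum_const, card_univ, nsmul_eq_mul]; ring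
        _ ≤ _ := by
            rw [← mul_sum]
            refine mul_le_mul_of_nonneg_left (sum_le_sum_of_subset_of_nonneg
              (fun r hr => mem_filter.2 ⟨mem_univ _, (mem_filter.1 hr).2.1⟩)
              fun r _ _ => mul_nonneg (hp _).1 (hp _).1) (by positivity)
    rw [mul_min_of_nonneg _ _ (by positivity)]
    refine le_min ?_ ((E_mono hq fun ω => min_le_right _ _).trans h1)
    refine ((E_mono hq fun ω => min_le_left _ _).trans (E_one _).le).trans (by linarith)

theorem core {p : X → ℝ} (hp : ∀ i, 0 ≤ p i ∧ p i ≤ 1) (σ : K → X → X → Z)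
    (h1 : ∀ k x y y', σ k x y = σ k x y' → y = y') (h2 : ∀ k x x' y, σ k x y = σ k x' y → x = x')
    (hs : 1 ≤ ∑ x, p x) (F : K → ℝ) {η : ℝ} (hη : 1 ≤ η) (hF : ∀ k, ∑ x, p x ≤ F k)
    (hU : ∀ k, ∑ z ∈ univ.image (fun r : X × X => σ k r.1 r.2), min 1 (Gam p (σ k) z) ≤ F k)
    (hL : ∀ k, ∃ T : Finset Z, F k / η ≤ ∑ z ∈ T, min 1 (Gam p (σ k) z) ∧
      ((T.card : ℝ) ≤ η * F k ∨ (∑ x, p x) ^ 2 ≤ η * F k))
    {C : ℝ} (hC : (8 * (Fintype.card K + 1 : ℝ) ^ 3 + 1) * (64 * η ^ 4) ^ (Fintype.card K + 1) ≤ C) :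
    ∃ S : Finset X, (∑ x, p x) / 2 ≤ S.card ∧ S.card ≤ C * ∑ x, p x ∧ ∀ k,
      F k / (4 * η) ≤ ((S ×ˢ S).image fun r => σ k r.1 r.2).card ∧
      (((S ×ˢ S).image fun r => σ k r.1 r.2).card : ℝ) ≤ C * F k := by
  set s := ∑ x, p x with hsdef
  set m : ℝ := Fintype.card K + 1 with hm
  have hm1 : 1 ≤ m := by have : (0 : ℝ) ≤ Fintype.card K := by positivity
                         linarith
  have hF0 : ∀ k, 0 < F k := fun k => by linarith [hF k]
  have hq : ∀ a : Option K × Bool × X, 0 ≤ p a.2.2 ∧ p a.2.2 ≤ 1 := fun a => hp _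
  let g : Option K → (Bool × X → Bool) → ℝ := fun j ω => match j with
    | none => if s / 2 ≤ ∑ x, ind ω (true, x) then 1 else 0
    | some k => if F k / (4 * η) ≤ (hit (σ k) ω).card then 1 else 0
  set ρ : ℝ := (64 * η ^ 4) ^ (Fintype.card K + 1) with hρ
  have hη4 : 1 ≤ η ^ 4 := one_le_pow₀ hη
  have hρ0 : 0 < ρ := by positivity
  have hC0 : 0 < C := lt_of_lt_of_le (by positivity) hC
  have e1 : 1 / ρ ≤ E (fun a : Option K × Bool × X => p a.2.2)
      (fun ω => ∏ j, g j fun i => ω (j, i)) := by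
    rw [E_blocks (fun a : Bool × X => p a.2) g]
    calc 1 / ρ = ∏ _j : Option K, 1 / (64 * η ^ 4) := by
          rw [prod_const, card_univ, Fintype.card_option, hρ, one_div_pow]
      _ ≤ _ := prod_le_prod (fun _ _ => by positivity) fun j _ => ?_
    cases j with
    | none =>
      refine le_trans ?_ (block_card hp hs)
      exact one_div_le_one_div_of_le (by norm_num) (by linarith)
    | some k =>
      obtain ⟨T, a1, a2⟩ := hL k
      exact block_hit hp (h1 k) (h2 k) hs (hF0 k) (by linarith) T a1 a2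
  let W : K → (Option K × Bool × X → Bool) → ℝ := fun k ω =>
    (((uni ω ×ˢ uni ω).image fun r => σ k r.1 r.2).card : ℝ)
  let U : (Option K × Bool × X → Bool) → ℝ := fun ω =>
    1 / (C * s) * (uni ω).card + ∑ k, 1 / (C * F k) * W k ω
  have hM : (Fintype.card (Option K × Bool) : ℝ) = 2 * m := by simp [hm]; ring
  have e2 : E (fun a : Option K × Bool × X => p a.2.2) U ≤ 8 * m ^ 3 / C := by
    simp only [U]
    rw [E_add, E_sum, E_mul]
    simp only [E_mul]
    have a1 : 1 / (C * s) * E (fun a : Option K × Bool × X => p a.2.2)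
        (fun ω => ((uni ω).card : ℝ)) ≤ 8 * m ^ 2 / C := by
      have := uni_card (J := Option K) hp
      rw [hM] at this
      calc _ ≤ 1 / (C * s) * (2 * m * s) := by gcongr
        _ = 2 * m / C := by field_simp
        _ ≤ _ := div_le_div_of_nonneg_right (by nlinarith) hC0.le
    have a2 : ∀ k, 1 / (C * F k) * E (fun a : Option K × Bool × X => p a.2.2) (W k) ≤
        8 * m ^ 2 / C := by
      intro k
      have := uni_image (J := Option K) hp (σ k)
      rw [hM] at this
      have b1 := hU k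
      have b2 := hF k
      have b3 := hF0 k
      calc _ ≤ 1 / (C * F k) * (8 * m ^ 2 * F k) := by
            gcongr
            refine this.trans ?_
            have c1 : 2 * m * s ≤ (2 * m) ^ 2 * F k := by gcongr; nlinarith
            have c2 := mul_le_mul_of_nonneg_left b1 (show 0 ≤ (2 * m) ^ 2 by positivity)
            nlinarith
        _ = _ := by field_simp
    calc _ ≤ 8 * m ^ 2 / C + ∑ _k : K, 8 * m ^ 2 / C := add_le_add a1 (sum_le_sum fun k _ => a2 k)
      _ = _ := by simp only [sum_const, card_univ, nsmul_eq_mul, hm]; field_simp; ring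
  have e3 : 8 * m ^ 3 / C < 1 / ρ := by
    rw [div_lt_div_iff₀ hC0 hρ0]; nlinarith
  obtain ⟨ω, hω⟩ : ∃ ω, U ω < ∏ j, g j fun i => ω (j, i) := by
    by_contra h
    push Not at h
    have := E_mono hq h
    linarith
  have hW : ∀ k, 0 ≤ 1 / (C * F k) * W k ω := fun k => by have := hF0 k; positivity
  have hu : 0 ≤ 1 / (C * s) * (uni ω).card := by positivity
  have hU0 : 0 ≤ U ω := add_nonneg hu (sum_nonneg fun k _ => hW k)
  have hg : ∀ j, g j (fun i => ω (j, i)) ≠ 0 := fun j =>
    prod_ne_zero_iff.1 (hU0.trans_lt hω).ne' j (mem_univ _)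
  have hU1 : U ω ≤ 1 := hω.le.trans (prod_le_one (fun j _ => by
    cases j <;> simp only [g] <;> split_ifs <;> norm_num) fun j _ => by
    cases j <;> simp only [g] <;> split_ifs <;> norm_num)
  refine ⟨uni ω, ?_, ?_, fun k => ⟨?_, ?_⟩⟩
  · have := hg none
    simp only [g, ne_eq, ite_eq_right_iff, one_ne_zero, imp_false, not_not] at this
    refine this.trans ?_
    rw [← card_ind]
    refine Nat.cast_le.2 (card_le_card fun x hx => ?_)
    exact mem_filter.2 ⟨mem_univ _, (none, true), (mem_filter.1 hx).2⟩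
  · have : 1 / (C * s) * (uni ω).card ≤ 1 := by
      have := sum_nonneg fun k (_ : k ∈ univ) => hW k
      simp only [U] at hU1; linarith
    rwa [one_div_mul_eq_div, div_le_one (by positivity)] at this
  · have := hg (some k)
    simp only [g, ne_eq, ite_eq_right_iff, one_ne_zero, imp_false, not_not] at this
    refine this.trans ?_
    refine Nat.cast_le.2 (card_le_card (image_subset_image fun r hr => ?_))
    have := (mem_filter.1 hr).2
    exact mem_product.2 ⟨mem_filter.2 ⟨mem_univ _, (some k, true), this.1⟩,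
      mem_filter.2 ⟨mem_univ _, (some k, false), this.2⟩⟩
  · have : 1 / (C * F k) * W k ω ≤ 1 := by
      have := single_le_sum (fun k (_ : k ∈ univ) => hW k) (mem_univ k)
      simp only [U] at hU1; linarith
    have b3 := hF0 k
    rwa [one_div_mul_eq_div, div_le_one (by positivity)] at this

end Pool.Agent.H.MP_0d5181_co
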