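import Pool.Agent.H.MP_0d5181_co.B

namespace Pool.Agent.H.MP_0d5181_co

open Finset

variable {β : Type*} [DecidableEq β]

omit [DecidableEq β] in
theorem opt (T : Finset β) (γ : β → ℝ) (hγ : ∀ z ∈ T, 0 < γ z) : ∃ p : ℝ, 0 ≤ p ∧ p ≤ 1 ∧
    (∀ q : ℝ, 0 ≤ q → q ≤ 1 → ∑ z ∈ T, γ z ^ p ≤ ∑ z ∈ T, γ z ^ q) ∧
    ((p * ∑ z ∈ T, γ z ^ p * Real.log (γ z) = 0 ∧ 0 ≤ ∑ z ∈ T, γ z ^ p * Real.log (γ z)) ∨
      (p = 1 ∧ ∑ z ∈ T, γ z ^ p * Real.log (γ z) ≤ 0)) := by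
  let G : ℝ → ℝ := fun p => ∑ z ∈ T, γ z ^ p * Real.log (γ z)
  have key : ∀ p q : ℝ, ∑ z ∈ T, γ z ^ p + (q - p) * G p ≤ ∑ z ∈ T, γ z ^ q := by
    intro p q
    simp only [G, mul_sum, ← sum_add_distrib]
    refine sum_le_sum fun z hz => ?_
    have h1 : γ z ^ q = γ z ^ p * Real.exp ((q - p) * Real.log (γ z)) := by
      rw [Real.rpow_def_of_pos (hγ z hz), Real.rpow_def_of_pos (hγ z hz), ← Real.exp_add]
      congr 1; ring
    have h2 := Real.add_one_le_exp ((q - p) * Real.log (γ z))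
    have h3 := Real.rpow_pos_of_pos (hγ z hz) p
    rw [h1]; nlinarith
  by_cases h0 : 0 ≤ G 0
  · exact ⟨0, le_rfl, zero_le_one, fun q a _ => by have := key 0 q; nlinarith,
      Or.inl ⟨zero_mul _, h0⟩⟩
  by_cases h1 : G 1 ≤ 0
  · exact ⟨1, zero_le_one, le_rfl, fun q _ a => by have := key 1 q; nlinarith, Or.inr ⟨rfl, h1⟩⟩
  have hc : Continuous G := continuous_finset_sum _ fun z hz =>
    (Real.continuous_const_rpow (hγ z hz).ne').mul continuous_const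
  obtain ⟨p, ⟨a, b⟩, hp⟩ := intermediate_value_Icc zero_le_one hc.continuousOn
    (show (0 : ℝ) ∈ Set.Icc (G 0) (G 1) from ⟨by linarith, by linarith⟩)
  exact ⟨p, a, b, fun q _ _ => by have := key p q; rw [hp] at this; linarith,
    Or.inl ⟨by rw [show ∑ z ∈ T, γ z ^ p * Real.log (γ z) = 0 from hp, mul_zero], hp.ge⟩⟩

omit [DecidableEq β] in
theorem inf_eq (T : Finset β) (γ : β → ℝ) (hγ : ∀ z ∈ T, 0 < γ z) {p : ℝ} (h0 : 0 ≤ p) (h1 : p ≤ 1)
    (h : ∀ q : ℝ, 0 ≤ q → q ≤ 1 → ∑ z ∈ T, γ z ^ p ≤ ∑ z ∈ T, γ z ^ q) :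
    ⨅ q : Set.Ioo (0 : ℝ) 1, ∑ z ∈ T, γ z ^ (q : ℝ) = ∑ z ∈ T, γ z ^ p := by
  haveI : Nonempty (Set.Ioo (0 : ℝ) 1) := ⟨⟨1 / 2, by norm_num, by norm_num⟩⟩
  refine le_antisymm ?_ (le_ciInf fun q => h q q.2.1.le q.2.2.le)
  have hc : Continuous fun q : ℝ => ∑ z ∈ T, γ z ^ q := continuous_finset_sum _ fun z hz =>
    Real.continuous_const_rpow (hγ z hz).ne'
  have hcl := isClosed_le (continuous_const
    (y := ⨅ q : Set.Ioo (0 : ℝ) 1, ∑ z ∈ T, γ z ^ (q : ℝ))) hc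
  have hsub : Set.Ioo (0 : ℝ) 1 ⊆ {q : ℝ | (⨅ q : Set.Ioo (0 : ℝ) 1, ∑ z ∈ T, γ z ^ (q : ℝ)) ≤
      ∑ z ∈ T, γ z ^ q} := fun q hq =>
    ciInf_le (f := fun q : Set.Ioo (0 : ℝ) 1 => ∑ z ∈ T, γ z ^ (q : ℝ))
      ⟨_, by rintro _ ⟨q, rfl⟩; exact h q q.2.1.le q.2.2.le⟩ ⟨q, hq⟩
  exact closure_minimal hsub hcl (by rw [closure_Ioo zero_ne_one]; exact ⟨h0, h1⟩)

theorem cheb (T : Finset β) (μ h : β → ℝ) (hμ : ∑ z ∈ T, μ z = 1)
    (hh : ∑ z ∈ T, μ z * h z = 0) (n : ℕ) :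
    ∑ z ∈ Fintype.piFinset fun _ : Fin n => T, (∏ t, μ (z t)) * (∑ t, h (z t)) ^ 2 =
      n * ∑ z ∈ T, μ z * h z ^ 2 := by
  have key : ∀ t u : Fin n, ∑ z ∈ Fintype.piFinset fun _ : Fin n => T,
      (∏ r, μ (z r)) * (h (z t) * h (z u)) = if t = u then ∑ z ∈ T, μ z * h z ^ 2 else 0 := by
    intro t u
    have e : ∀ z : Fin n → β, (∏ r, μ (z r)) * (h (z t) * h (z u)) =
        ∏ r, (μ (z r) * ((if r = t then h (z r) else 1) * if r = u then h (z r) else 1)) := by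
      intro z
      simp only [prod_mul_distrib, prod_ite_eq', mem_univ, if_true]
    simp only [e]
    rw [← prod_univ_sum (fun _ : Fin n => T) fun r y =>
      μ y * ((if r = t then h y else 1) * if r = u then h y else 1)]
    split_ifs with htu
    · subst htu
      rw [prod_eq_single t (fun r _ hr => by simp [hr, hμ]) (by simp)]
      simp [sq]
    · exact prod_eq_zero (mem_univ t) (by simp [htu, hh])
  calc _ = ∑ z ∈ Fintype.piFinset fun _ : Fin n => T, ∑ t, ∑ u,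
        (∏ r, μ (z r)) * (h (z t) * h (z u)) := by
        refine sum_congr rfl fun z _ => ?_
        rw [sq, sum_mul_sum]
        simp only [mul_sum]
    _ = ∑ t, ∑ u, ∑ z ∈ Fintype.piFinset fun _ : Fin n => T,
        (∏ r, μ (z r)) * (h (z t) * h (z u)) := by
        rw [sum_comm]
        exact sum_congr rfl fun t _ => sum_comm
    _ = _ := by simp [key]

theorem typical (T : Finset β) (hT : T.Nonempty) (γ : β → ℝ) (hγ : ∀ z ∈ T, 0 < γ z) {p : ℝ}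
    (h0 : 0 ≤ p) (h1 : p ≤ 1)
    (hp : (p * ∑ z ∈ T, γ z ^ p * Real.log (γ z) = 0 ∧ 0 ≤ ∑ z ∈ T, γ z ^ p * Real.log (γ z)) ∨
      (p = 1 ∧ ∑ z ∈ T, γ z ^ p * Real.log (γ z) ≤ 0)) {δ : ℝ} (hδ : 0 < δ) :
    ∀ᶠ n : ℕ in Filter.atTop, ∃ U : Finset (Fin n → β),
      (∑ z ∈ T, γ z ^ p) ^ n / (2 * Real.exp (δ * n) ^ 2) ≤ ∑ z ∈ U, min 1 (∏ t, γ (z t)) ∧
      ((U.card : ℝ) ≤ 2 * Real.exp (δ * n) ^ 2 * (∑ z ∈ T, γ z ^ p) ^ n ∨ p = 1) := by
  set F := ∑ z ∈ T, γ z ^ p with hF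
  set G := ∑ z ∈ T, γ z ^ p * Real.log (γ z) with hG
  have hF0 : 0 < F := sum_pos (fun z hz => Real.rpow_pos_of_pos (hγ z hz) p) hT
  let μ : β → ℝ := fun z => γ z ^ p / F
  let h : β → ℝ := fun z => Real.log (γ z) - G / F
  have hμ : ∑ z ∈ T, μ z = 1 := by simp only [μ]; rw [← sum_div, div_self hF0.ne']
  have hh : ∑ z ∈ T, μ z * h z = 0 := by
    have : ∀ z, μ z * h z = γ z ^ p * Real.log (γ z) / F - μ z * (G / F) := fun z => by
      simp only [μ, h]; ring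
    simp only [this, sum_sub_distrib, ← sum_mul, hμ, ← sum_div]; ring
  set v := ∑ z ∈ T, μ z * h z ^ 2
  filter_upwards [Filter.eventually_ge_atTop 1,
    tendsto_natCast_atTop_atTop.eventually_ge_atTop (2 * v / δ ^ 2)] with n hn1 hn
  have hn0 : (0 : ℝ) < n := by exact_mod_cast hn1
  set P := Fintype.piFinset fun _ : Fin n => T
  set θ := Real.exp (δ * n) with hθ
  have hθ1 : 1 ≤ θ := Real.one_le_exp (by positivity)
  let U := P.filter fun z => |∑ t, h (z t)| ≤ δ * n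
  have hPm : ∀ z ∈ P, ∀ t, 0 < γ (z t) := fun z hz t => hγ _ (Fintype.mem_piFinset.1 hz t)
  have hw : ∀ z ∈ P, 0 ≤ ∏ t, μ (z t) := fun z hz => prod_nonneg fun t _ =>
    div_nonneg (Real.rpow_pos_of_pos (hPm z hz t) p).le hF0.le
  have tot : ∑ z ∈ P, ∏ t, μ (z t) = 1 := by
    rw [← prod_univ_sum (fun _ : Fin n => T) fun _ y => μ y]; simp [hμ]
  have hU1 : ∑ z ∈ U, ∏ t, μ (z t) ≤ 1 :=
    tot ▸ sum_le_sum_of_subset_of_nonneg (filter_subset _ _) fun z hz _ => hw z hz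
  have hU2 : 1 / 2 ≤ ∑ z ∈ U, ∏ t, μ (z t) := by
    have a1 := cheb T μ h hμ hh n
    have a2 : (δ * n) ^ 2 * (1 - ∑ z ∈ U, ∏ t, μ (z t)) ≤ n * v := by
      rw [← a1, ← tot, sum_filter, ← sum_sub_distrib, mul_sum]
      refine sum_le_sum fun z hz => ?_
      have := hw z hz
      split_ifs with e
      · simp only [sub_self, mul_zero]; positivity
      · rw [sub_zero, mul_comm]
        refine mul_le_mul_of_nonneg_left ?_ this
        rw [← sq_abs (∑ t, h (z t))]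
        exact pow_le_pow_left₀ (by positivity) (not_le.1 e).le 2
    rw [div_le_iff₀ (by positivity)] at hn
    by_contra hlt
    have a3 : 0 < (δ * n) ^ 2 := by positivity
    nlinarith
  have hμn : ∀ z ∈ P, ∏ t, μ (z t) = Real.exp (p * ∑ t, Real.log (γ (z t))) / F ^ n := by
    intro z hz
    simp only [μ, prod_div_distrib, prod_const, card_univ, Fintype.card_fin, mul_sum, Real.exp_sum]
    congr 1
    exact prod_congr rfl fun t _ => by rw [Real.rpow_def_of_pos (hPm z hz t), mul_comm]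
  have hΓ : ∀ z ∈ P, ∏ t, γ (z t) = Real.exp (∑ t, Real.log (γ (z t))) := by
    intro z hz
    rw [Real.exp_sum]
    exact prod_congr rfl fun t _ => (Real.exp_log (hPm z hz t)).symm
  have hsum : ∀ z : Fin n → β, ∑ t, h (z t) = ∑ t, Real.log (γ (z t)) - n * (G / F) := by
    intro z; simp [h]
  have hFn : 0 < F ^ n := by positivity
  refine ⟨U, ?_⟩
  rcases hp with ⟨a1, a2⟩ | ⟨a1, a2⟩
  · have b0 : 0 ≤ n * (G / F) := by positivity
    have b1 : ∀ z ∈ U, 1 / θ / F ^ n ≤ ∏ t, μ (z t) ∧ ∏ t, μ (z t) ≤ θ / F ^ n ∧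
        1 / θ ≤ min 1 (∏ t, γ (z t)) := by
      intro z hz
      obtain ⟨c1, c2⟩ := mem_filter.1 hz
      rw [hμn z c1, hΓ z c1, hθ, one_div, ← Real.exp_neg]
      have c3 : p * ∑ t, Real.log (γ (z t)) = p * ∑ t, h (z t) := by
        rw [hsum, mul_sub, show p * (n * (G / F)) = n * (p * G) / F by ring, a1]; ring
      have c4 := abs_le.1 c2
      have c5 : 0 ≤ δ * n := by positivity
      rw [c3]
      have c6 := abs_le.1 (show |p * ∑ t, h (z t)| ≤ δ * n by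
        rw [abs_mul, abs_of_nonneg h0]
        exact (mul_le_of_le_one_left (abs_nonneg _) h1).trans c2)
      refine ⟨by gcongr; exact c6.1, div_le_div_of_nonneg_right (Real.exp_le_exp.2 c6.2) hFn.le, le_min ?_ ?_⟩
      · exact Real.exp_le_one_iff.2 (by linarith)
      · rw [hsum] at c4; gcongr; linarith
    have b2 : (U.card : ℝ) * (1 / θ / F ^ n) ≤ 1 := by
      rw [← nsmul_eq_mul, ← sum_const]; exact (sum_le_sum fun z hz => (b1 z hz).1).trans hU1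
    have b3 : 1 / 2 ≤ (U.card : ℝ) * (θ / F ^ n) := by
      rw [← nsmul_eq_mul, ← sum_const]; exact hU2.trans (sum_le_sum fun z hz => (b1 z hz).2.1)
    have b4 : (U.card : ℝ) * (1 / θ) ≤ ∑ z ∈ U, min 1 (∏ t, γ (z t)) := by
      rw [← nsmul_eq_mul, ← sum_const]; exact sum_le_sum fun z hz => (b1 z hz).2.2
    refine ⟨le_trans ?_ b4, Or.inl ?_⟩
    · rw [div_le_iff₀ (by positivity)]
      rw [← mul_div_assoc, le_div_iff₀ hFn] at b3
      calc F ^ n ≤ 2 * (U.card * θ) := by linarith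
        _ = _ := by field_simp
    · rw [div_div, mul_one_div, div_le_one (by positivity)] at b2
      refine b2.trans ?_
      gcongr; nlinarith
  · refine ⟨?_, Or.inr a1⟩
    have b0 : n * (G / F) ≤ 0 := mul_nonpos_of_nonneg_of_nonpos hn0.le (div_nonpos_of_nonpos_of_nonneg a2 hF0.le)
    have b1 : ∀ z ∈ U, F ^ n / θ * ∏ t, μ (z t) ≤ min 1 (∏ t, γ (z t)) := by
      intro z hz
      obtain ⟨c1, c2⟩ := mem_filter.1 hz
      rw [hμn z c1, hΓ z c1, a1, one_mul]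
      have c4 := abs_le.1 c2
      rw [hsum] at c4
      have c5 : Real.exp (∑ t, Real.log (γ (z t))) ≤ θ := by rw [hθ]; gcongr; linarith
      have c6 := Real.exp_pos (∑ t, Real.log (γ (z t)))
      rw [show F ^ n / θ * (Real.exp (∑ t, Real.log (γ (z t))) / F ^ n) =
        Real.exp (∑ t, Real.log (γ (z t))) / θ by field_simp]
      exact le_min ((div_le_one (by positivity)).2 c5) (div_le_self c6.le hθ1)
    refine le_trans ?_ (sum_le_sum b1)
    rw [← mul_sum]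
    calc F ^ n / (2 * θ ^ 2) ≤ F ^ n / (2 * θ) := by gcongr; nlinarith
      _ = F ^ n / θ * (1 / 2) := by field_simp
      _ ≤ _ := by gcongr

omit [DecidableEq β] in
theorem min_le_rpow {x p : ℝ} (hx : 0 < x) (h0 : 0 ≤ p) (h1 : p ≤ 1) : min 1 x ≤ x ^ p := by
  rcases le_total 1 x with h | h
  · rw [min_eq_left h]; exact Real.one_le_rpow h h0
  · rw [min_eq_right h]
    simpa using Real.rpow_le_rpow_of_exponent_ge hx h h1

/-- A linear form that is injective on a given finite set. -/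
theorem exists_form {n : ℕ} (A : Finset (Fin n → ℤ)) : ∃ L : ℤ, ∀ u ∈ A, ∀ v ∈ A,
    ∑ t, u t * L ^ (t : ℕ) = ∑ t, v t * L ^ (t : ℕ) → u = v := by
  let P : (Fin n → ℤ) → Polynomial ℤ := fun u => ∑ t : Fin n, Polynomial.monomial (t : ℕ) (u t)
  have hP : ∀ u v, P u = P v → u = v := by
    intro u v h
    funext t
    have := congrArg (fun q => q.coeff t) h
    simpa [P, Polynomial.coeff_monomial, Fin.val_inj] using this
  let Q := ∏ r ∈ (A ×ˢ A).filter (fun r => r.1 ≠ r.2), (P r.1 - P r.2)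
  have hQ : Q ≠ 0 := prod_ne_zero_iff.2 fun r hr e => (mem_filter.1 hr).2 (hP _ _ (sub_eq_zero.1 e))
  obtain ⟨L, hL⟩ := Infinite.exists_notMem_finset Q.roots.toFinset
  refine ⟨L, fun u hu v hv h => ?_⟩
  by_contra hne
  refine hL (Multiset.mem_toFinset.2 ((Polynomial.mem_roots hQ).2 ?_))
  simp only [Q, Polynomial.IsRoot, Polynomial.eval_prod]
  refine prod_eq_zero (i := (u, v)) (mem_filter.2 ⟨mem_product.2 ⟨hu, hv⟩, hne⟩) ?_
  simp [P, Polynomial.eval_finsetSum, h]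

end Pool.Agent.H.MP_0d5181_co
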